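import Mathlib

/-!
# The radius of convergence of the q-deformed real numbers

For every real number `x` the q-deformed number `[x]_q` of Morier-Genoud and Ovsienko is a series
whose radius of convergence is at least `(3 - √5) / 2`.

The proof.  Put `s = (√5 - 1) / 2`, so that `s + s ^ 2 = 1` and `(3 - √5) / 2 = s ^ 2`.  If
`|q| ≤ s ^ 2` then the disc `|u - 1| ≤ s` is mapped into itself by `u ↦ 1 + q u` and by
`u ↦ 1 + q - q / u`, hence by all the maps `u ↦ [c]_q - q ^ (c - 1) / u`, `c ≥ 2`, and it contains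
`[c]_q`.  Hence every truncation is a holomorphic function on this disc of values of `q`, bounded
by `1 + s`, and Cauchy's estimates give the bound for the coefficients, uniformly in the truncation.
-/

set_option autoImplicit false

namespace Pool.Agent.Results.MP_b13893_an.RadiusOfConvergence

open Filter Topology

/-- `[n]_q = 1 + q + ⋯ + q ^ (n - 1)` -/
noncomputable def qInt (n : ℕ) : PowerSeries ℤ := ∑ i ∈ Finset.range n, (PowerSeries.X) ^ i

/-- The truncated negative continued fraction `ncf N c = [[c 0, c 1, …, c N]]`, that is,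
`c 0 - 1 / (c 1 - 1 / (⋯ - 1 / c N))`. -/
noncomputable def ncf : ℕ → (ℕ → ℕ) → ℝ
  | 0, c => c 0
  | N + 1, c => c 0 - 1 / ncf N (fun j => c (j + 1))

/-- The q-deformed truncation `qcf N c = [[c 0, …, c N]]_q` as a power series in `q`:
`[c 0]_q - q ^ (c 0 - 1) / ([c 1]_q - q ^ (c 1 - 1) / (⋯ / [c N]_q))`.  (When all `c j ≥ 2` all the
denominators have constant term `1`, so they are units of `ℤ[[q]]`, and `Ring.inverse` is their
inverse.) -/
noncomputable def qcf : ℕ → (ℕ → ℕ) → PowerSeries ℤ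
  | 0, c => qInt (c 0)
  | N + 1, c =>
      qInt (c 0) - (PowerSeries.X) ^ (c 0 - 1) * Ring.inverse (qcf N (fun j => c (j + 1)))

/-- `x = [[c 0, c 1, …]]` is the negative continued fraction of `x`. -/
def Expansion (x : ℝ) (c : ℕ → ℕ) : Prop :=
  (∀ j, 2 ≤ c j) ∧ Tendsto (fun N => ncf N c) atTop (𝓝 x)

/-- `F` is the `q`-adic limit of the truncations `[[c 0, …, c N]]_q`. -/
def QLim (c : ℕ → ℕ) (F : PowerSeries ℤ) : Prop :=
  ∀ k : ℕ, ∀ᶠ N in atTop, PowerSeries.coeff k (qcf N c) = PowerSeries.coeff k F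

/-- `Q x = [x]_q` for all real `x`: for `x ≥ 1` it is the `q`-adic limit of the q-deformed
truncations of the negative continued fraction of `x`, and `[x - 1]_q = q⁻¹ ([x]_q - 1)` for all
real `x`. -/
structure IsQReal (Q : ℝ → LaurentSeries ℤ) : Prop where
  lim : ∀ x : ℝ, 1 ≤ x → ∀ c : ℕ → ℕ, Expansion x c →
    ∃ F : PowerSeries ℤ, QLim c F ∧ Q x = HahnSeries.ofPowerSeries ℤ ℤ F
  shift : ∀ x : ℝ, Q (x - 1) = HahnSeries.single (-1 : ℤ) (1 : ℤ) * (Q x - 1)

/-- The radius of convergence of a Laurent series with integer coefficients: the radius of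
convergence (in Mathlib's sense, over `ℂ`) of its part with the nonnegative exponents. -/
noncomputable def radius (F : LaurentSeries ℤ) : ENNReal :=
  (FormalMultilinearSeries.ofScalars ℂ (fun n : ℕ => ((F.coeff (n : ℤ) : ℤ) : ℂ))).radius

/-! ### the real continued fractions -/

lemma one_lt_ncf (N : ℕ) : ∀ c : ℕ → ℕ, (∀ j, 2 ≤ c j) → 1 < ncf N c := by
  induction N with
  | zero =>
    intro c hc
    have : (2 : ℝ) ≤ c 0 := by exact_mod_cast hc 0
    simp only [ncf]; linarith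
  | succ N ih =>
    intro c hc
    have h0 : (2 : ℝ) ≤ c 0 := by exact_mod_cast hc 0
    have h1 := ih (fun j => c (j + 1)) (fun j => hc _)
    have h2 : 1 / ncf N (fun j => c (j + 1)) < 1 := by
      rw [div_lt_one (by linarith)]; exact h1
    simp only [ncf]; linarith

lemma ncf_le (N : ℕ) (c : ℕ → ℕ) (hc : ∀ j, 2 ≤ c j) : ncf N c ≤ c 0 := by
  cases N with
  | zero => simp [ncf]
  | succ N =>
    have h1 := one_lt_ncf N (fun j => c (j + 1)) (fun j => hc _)
    have : 0 < 1 / ncf N (fun j => c (j + 1)) := by positivity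
    simp only [ncf]; linarith

lemma expansion_tail {x : ℝ} {c : ℕ → ℕ} (h : Expansion x c) :
    (c 0 : ℝ) - 1 ≤ x ∧ x < c 0 ∧ Expansion (1 / (c 0 - x)) (fun j => c (j + 1)) := by
  obtain ⟨hc, hx⟩ := h
  set t : ℕ → ℝ := fun N => ncf N (fun j => c (j + 1)) with ht
  have ht1 : ∀ N, 1 < t N := fun N => one_lt_ncf N _ (fun j => hc _)
  have ht2 : ∀ N, t N ≤ c 1 := fun N => ncf_le N _ (fun j => hc _)
  have hx' : Tendsto (fun N => (c 0 : ℝ) - 1 / t N) atTop (𝓝 x) := by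
    have := hx.comp (tendsto_add_atTop_nat 1)
    simpa [Function.comp_def, ncf, ht] using this
  have hinv : Tendsto (fun N => 1 / t N) atTop (𝓝 (c 0 - x)) := by
    have := (tendsto_const_nhds (x := (c 0 : ℝ))).sub hx'
    simpa using this
  have hc1 : (0 : ℝ) < c 1 := by
    have : (2 : ℝ) ≤ c 1 := by exact_mod_cast hc 1
    linarith
  have hle : (c 0 : ℝ) - x ≤ 1 := by
    refine le_of_tendsto' hinv (fun N => ?_)
    rw [div_le_one (by linarith [ht1 N])]; exact (ht1 N).le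
  have hge : 1 / (c 1 : ℝ) ≤ (c 0 : ℝ) - x := by
    refine ge_of_tendsto' hinv (fun N => ?_)
    exact one_div_le_one_div_of_le (by linarith [ht1 N]) (ht2 N)
  have hpos : 0 < (c 0 : ℝ) - x := lt_of_lt_of_le (by positivity) hge
  refine ⟨by linarith, by linarith, fun j => hc _, ?_⟩
  have := hinv.inv₀ hpos.ne'
  simpa [one_div, ht] using this

lemma expansion_unique (j : ℕ) : ∀ (x : ℝ) (c c' : ℕ → ℕ), Expansion x c → Expansion x c' →
    c j = c' j := by
  have key : ∀ (x : ℝ) (c c' : ℕ → ℕ), Expansion x c → Expansion x c' → c 0 = c' 0 := by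
    intro x c c' h h'
    obtain ⟨h1, h2, -⟩ := expansion_tail h
    obtain ⟨h1', h2', -⟩ := expansion_tail h'
    have a : (c 0 : ℝ) < c' 0 + 1 := by linarith
    have b : (c' 0 : ℝ) < c 0 + 1 := by linarith
    have a' : c 0 < c' 0 + 1 := by exact_mod_cast a
    have b' : c' 0 < c 0 + 1 := by exact_mod_cast b
    omega
  induction j with
  | zero => exact key
  | succ j ih =>
    intro x c c' h h'
    have h0 := key x c c' h h'
    obtain ⟨-, -, h3⟩ := expansion_tail h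
    obtain ⟨-, -, h3'⟩ := expansion_tail h'
    rw [h0] at h3
    exact ih _ _ _ h3 h3'

/-- error estimate for the truncations -/
lemma ncf_error (N : ℕ) : ∀ (c : ℕ → ℕ) (y : ℕ → ℝ), (∀ j, 1 ≤ y j) →
    (∀ j, y j = c j - 1 / y (j + 1)) →
    0 ≤ ncf N c - y 0 ∧ ncf N c - y 0 ≤ 1 / ((N : ℝ) + 1) := by
  induction N with
  | zero =>
    intro c y hy1 hy
    have h1 := hy1 1
    have h0 := hy 0
    simp only [zero_add] at h0
    have hp : 0 < 1 / y 1 := by positivity
    have hl : 1 / y 1 ≤ 1 := by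
      rw [div_le_one (by linarith)]; exact h1
    simp only [ncf, Nat.cast_zero, zero_add, div_one]
    constructor <;> linarith
  | succ N ih =>
    intro c y hy1 hy
    obtain ⟨h1, h2⟩ := ih (fun j => c (j + 1)) (fun j => y (j + 1)) (fun j => hy1 _) (fun j => hy _)
    simp only [zero_add] at h1 h2
    set t := ncf N (fun j => c (j + 1)) with ht
    have hy1' := hy1 1
    have h0 := hy 0
    simp only [zero_add] at h0
    have hd : ncf (N + 1) c - y 0 = (t - y 1) / (y 1 * t) := by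
      have ht0 : t ≠ 0 := by
        intro h; linarith
      have hy0 : y 1 ≠ 0 := by
        intro h; linarith
      simp only [ncf, ← ht]
      rw [h0]; field_simp; ring
    have htp : 1 ≤ t := by linarith
    have hN : (0 : ℝ) < (N : ℝ) + 1 := by positivity
    rw [hd]
    refine ⟨div_nonneg h1 (by positivity), ?_⟩
    have hden : 1 + (t - y 1) ≤ y 1 * t := by nlinarith
    rw [div_le_div_iff₀ (by positivity) (by positivity)]
    push_cast
    have h2' : (t - y 1) * ((N : ℝ) + 1) ≤ 1 := by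
      rwa [le_div_iff₀ hN] at h2
    nlinarith

/-- the complete quotients of the negative continued fraction -/
noncomputable def yseq (x : ℝ) : ℕ → ℝ
  | 0 => x
  | j + 1 => 1 / ((⌊yseq x j⌋₊ : ℝ) + 1 - yseq x j)

lemma one_le_yseq {x : ℝ} (hx : 1 ≤ x) (j : ℕ) : 1 ≤ yseq x j := by
  induction j with
  | zero => exact hx
  | succ j ih =>
    have h1 : (⌊yseq x j⌋₊ : ℝ) ≤ yseq x j := Nat.floor_le (by linarith)
    have h2 : yseq x j < (⌊yseq x j⌋₊ : ℝ) + 1 := Nat.lt_floor_add_one _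
    simp only [yseq]
    rw [le_div_iff₀ (by linarith)]
    linarith

lemma exists_expansion {x : ℝ} (hx : 1 ≤ x) : ∃ c, Expansion x c := by
  refine ⟨fun j => ⌊yseq x j⌋₊ + 1, fun j => ?_, ?_⟩
  · have h1 := one_le_yseq hx j
    have : 1 ≤ ⌊yseq x j⌋₊ := Nat.le_floor (by simpa using h1)
    show 2 ≤ ⌊yseq x j⌋₊ + 1
    omega
  · have hE := fun N => ncf_error N (fun j => ⌊yseq x j⌋₊ + 1) (yseq x) (one_le_yseq hx)
      (fun j => by
        have h2 : yseq x j < (⌊yseq x j⌋₊ : ℝ) + 1 := Nat.lt_floor_add_one _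
        simp only [yseq, one_div, inv_inv]
        push_cast; ring)
    have hlim : Tendsto (fun N : ℕ => 1 / ((N : ℝ) + 1)) atTop (𝓝 0) :=
      tendsto_one_div_add_atTop_nhds_zero_nat
    have : Tendsto (fun N => ncf N (fun j => ⌊yseq x j⌋₊ + 1) - x) atTop (𝓝 0) :=
      tendsto_of_tendsto_of_tendsto_of_le_of_le tendsto_const_nhds hlim
        (fun N => (hE N).1) (fun N => (hE N).2)
    have h3 := this.add_const x
    simpa using h3

/-! ### the `q`-adic limit -/

lemma qInt_succ (n : ℕ) : qInt (n + 1) = 1 + PowerSeries.X * qInt n := by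
  unfold qInt
  rw [Finset.sum_range_succ', Finset.mul_sum, add_comm, pow_zero]
  congr 1
  exact Finset.sum_congr rfl fun i _ => by ring

lemma constCoeff_qcf (N : ℕ) (c : ℕ → ℕ) (hc : ∀ j, 2 ≤ c j) :
    PowerSeries.constantCoeff (qcf N c) = 1 := by
  have h0 : PowerSeries.constantCoeff (qInt (c 0)) = 1 := by
    obtain ⟨m, hm⟩ : ∃ m, c 0 = m + 1 := ⟨c 0 - 1, by have := hc 0; omega⟩
    rw [hm, qInt_succ]; simp
  cases N with
  | zero => simpa [qcf] using h0
  | succ N =>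
    have h1 : c 0 - 1 ≠ 0 := by have := hc 0; omega
    simp [qcf, h0, h1]

lemma isUnit_qcf (N : ℕ) (c : ℕ → ℕ) (hc : ∀ j, 2 ≤ c j) : IsUnit (qcf N c) := by
  rw [PowerSeries.isUnit_iff_constantCoeff, constCoeff_qcf N c hc]
  exact isUnit_one

lemma qcf_succ_sub (N : ℕ) : ∀ c : ℕ → ℕ, (∀ j, 2 ≤ c j) →
    (PowerSeries.X : PowerSeries ℤ) ^ (N + 1) ∣ qcf (N + 1) c - qcf N c := by
  induction N with
  | zero =>
    intro c hc
    have h1 : 1 ≤ c 0 - 1 := by have := hc 0; omega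
    have : qcf 1 c - qcf 0 c
        = -(PowerSeries.X ^ (c 0 - 1) * Ring.inverse (qcf 0 (fun j => c (j + 1)))) := by
      simp only [qcf]; ring
    rw [show (0 : ℕ) + 1 = 1 from rfl, this, dvd_neg]
    exact Dvd.dvd.mul_right (pow_dvd_pow _ h1) _
  | succ N ih =>
    intro c hc
    have h1 : 1 ≤ c 0 - 1 := by have := hc 0; omega
    set A := qcf N (fun j => c (j + 1)) with hA
    set A' := qcf (N + 1) (fun j => c (j + 1)) with hA'
    have uA : IsUnit A := isUnit_qcf _ _ fun j => hc _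
    have uA' : IsUnit A' := isUnit_qcf _ _ fun j => hc _
    have hd : (PowerSeries.X : PowerSeries ℤ) ^ (N + 1) ∣ A' - A := ih _ fun j => hc _
    have e1 : A * Ring.inverse A = 1 := Ring.mul_inverse_cancel _ uA
    have e2 : A' * Ring.inverse A' = 1 := Ring.mul_inverse_cancel _ uA'
    have : qcf (N + 1 + 1) c - qcf (N + 1) c
        = (PowerSeries.X ^ (c 0 - 1) * (A' - A)) * (Ring.inverse A * Ring.inverse A') := by
      have : qcf (N + 1 + 1) c - qcf (N + 1) c
          = PowerSeries.X ^ (c 0 - 1) * (Ring.inverse A - Ring.inverse A') := by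
        rw [show qcf (N + 1 + 1) c = qInt (c 0) - PowerSeries.X ^ (c 0 - 1) * Ring.inverse A'
            from rfl,
          show qcf (N + 1) c = qInt (c 0) - PowerSeries.X ^ (c 0 - 1) * Ring.inverse A from rfl]
        ring
      rw [this]
      have : Ring.inverse A - Ring.inverse A' = (A' - A) * (Ring.inverse A * Ring.inverse A') := by
        linear_combination (-Ring.inverse A) * e2 + Ring.inverse A' * e1
      rw [this]; ring
    rw [this]
    refine Dvd.dvd.mul_right ?_ _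
    have : (PowerSeries.X : PowerSeries ℤ) ^ (N + 1 + 1) = PowerSeries.X ^ 1 * PowerSeries.X ^ (N + 1) := by
      ring
    rw [this]
    exact mul_dvd_mul (pow_dvd_pow _ h1) hd

lemma coeff_stable {c : ℕ → ℕ} (hc : ∀ j, 2 ≤ c j) {k N : ℕ} (h : k ≤ N) :
    PowerSeries.coeff k (qcf N c) = PowerSeries.coeff k (qcf k c) := by
  induction N, h using Nat.le_induction with
  | base => rfl
  | succ N hN ih =>
    rw [← ih]
    have h1 := PowerSeries.X_pow_dvd_iff.mp (qcf_succ_sub N c hc) k (by omega)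
    rw [map_sub] at h1
    linarith

/-- the limit -/
noncomputable def lims (c : ℕ → ℕ) : PowerSeries ℤ :=
  PowerSeries.mk fun k => PowerSeries.coeff k (qcf k c)

lemma qlim_lims {c : ℕ → ℕ} (hc : ∀ j, 2 ≤ c j) : QLim c (lims c) := by
  intro k
  filter_upwards [eventually_ge_atTop k] with N hN
  rw [coeff_stable hc hN, lims, PowerSeries.coeff_mk]

lemma qlim_unique {c : ℕ → ℕ} {F G : PowerSeries ℤ} (hF : QLim c F) (hG : QLim c G) : F = G := by
  ext k
  obtain ⟨N, h1, h2⟩ := ((hF k).and (hG k)).exists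
  rw [← h1, h2]

/-! ### the shift -/

lemma qcf_shift (N : ℕ) (c : ℕ → ℕ) (c' : ℕ → ℕ) (h0 : c 0 = c' 0 + 1)
    (hc' : 2 ≤ c' 0) (h1 : ∀ j, c' (j + 1) = c (j + 1)) :
    qcf N c = 1 + PowerSeries.X * qcf N c' := by
  cases N with
  | zero => simp only [qcf]; rw [h0, qInt_succ]
  | succ N =>
    simp only [qcf]
    have : (fun j => c' (j + 1)) = fun j => c (j + 1) := funext h1
    rw [this, h0, qInt_succ]
    obtain ⟨m, hm⟩ : ∃ m, c' 0 = m + 1 := ⟨c' 0 - 1, by omega⟩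
    rw [hm]
    simp only [Nat.add_sub_cancel]
    ring

lemma ncf_shift (N : ℕ) (c : ℕ → ℕ) (c' : ℕ → ℕ) (h0 : c 0 = c' 0 + 1)
    (h1 : ∀ j, c' (j + 1) = c (j + 1)) : ncf N c' = ncf N c - 1 := by
  cases N with
  | zero => simp only [ncf]; rw [h0]; push_cast; ring
  | succ N =>
    simp only [ncf]
    have : (fun j => c' (j + 1)) = fun j => c (j + 1) := funext h1
    rw [this, h0]; push_cast; ring

/-- the expansion of `x - 1` when `x ≥ 2` -/
lemma expansion_shift {x : ℝ} {c : ℕ → ℕ} (hx : 2 ≤ x) (h : Expansion x c) :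
    ∃ c', Expansion (x - 1) c' ∧
      HahnSeries.ofPowerSeries ℤ ℤ (lims c')
        = HahnSeries.single (-1 : ℤ) (1 : ℤ) * (HahnSeries.ofPowerSeries ℤ ℤ (lims c) - 1) := by
  obtain ⟨h1, h2, -⟩ := expansion_tail h
  have hc3 : 3 ≤ c 0 := by
    have : (2 : ℝ) < c 0 := by linarith
    have : 2 < c 0 := by exact_mod_cast this
    omega
  obtain ⟨hc, hlim⟩ := h
  set c' : ℕ → ℕ := fun j => if j = 0 then c 0 - 1 else c j with hc'
  have h0 : c 0 = c' 0 + 1 := by simp [hc']; omega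
  have hs : ∀ j, c' (j + 1) = c (j + 1) := fun j => by simp [hc']
  have h2' : 2 ≤ c' 0 := by simp [hc']; omega
  have hall : ∀ j, 2 ≤ c' j := fun j => by
    cases j with
    | zero => exact h2'
    | succ j => rw [hs]; exact hc _
  refine ⟨c', ⟨hall, ?_⟩, ?_⟩
  · have : (fun N => ncf N c') = fun N => ncf N c - 1 := funext fun N => ncf_shift N c c' h0 hs
    rw [this]
    exact hlim.sub_const 1
  · have hps : lims c = 1 + PowerSeries.X * lims c' := by
      refine qlim_unique (qlim_lims hc) ?_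
      intro k
      have hq := qlim_lims hall
      cases k with
      | zero =>
        refine Eventually.of_forall fun N => ?_
        rw [qcf_shift N c c' h0 h2' hs]
        simp
      | succ k =>
        filter_upwards [hq k] with N hN
        rw [qcf_shift N c c' h0 h2' hs]
        simp only [map_add, PowerSeries.coeff_succ_X_mul, hN]
    have e1 : HahnSeries.ofPowerSeries ℤ ℤ (1 : PowerSeries ℤ) = 1 :=
      map_one (HahnSeries.ofPowerSeries ℤ ℤ)
    rw [hps, map_add, map_mul, e1, HahnSeries.ofPowerSeries_X, add_sub_cancel_left,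
      ← mul_assoc, HahnSeries.single_mul_single]
    simp

/-! ### the invariant disc -/

/-- the truncation as a function of the complex number `q` -/
noncomputable def qf : ℕ → (ℕ → ℕ) → ℂ → ℂ
  | 0, c, q => ∑ i ∈ Finset.range (c 0), q ^ i
  | N + 1, c, q => ∑ i ∈ Finset.range (c 0), q ^ i
      - q ^ (c 0 - 1) * (qf N (fun j => c (j + 1)) q)⁻¹

/-- `s = (√5 - 1) / 2` -/
noncomputable def ss : ℝ := (√5 - 1) / 2

lemma ss_eq : ss ^ 2 = 1 - ss := by
  have : √5 ^ 2 = 5 := Real.sq_sqrt (by norm_num)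
  unfold ss; nlinarith

lemma ss_pos : 0 < ss := by
  have : (1 : ℝ) < √5 := by
    rw [show (1 : ℝ) = √1 by simp]; exact Real.sqrt_lt_sqrt (by norm_num) (by norm_num)
  unfold ss; linarith

lemma ss_lt : ss < 1 := by
  have h := ss_eq
  have := ss_pos
  nlinarith

lemma ss_rho : (3 - √5) / 2 = ss ^ 2 := by
  rw [ss_eq]; unfold ss; ring

lemma geom_succ (n : ℕ) (q : ℂ) :
    ∑ i ∈ Finset.range (n + 1), q ^ i = 1 + q * ∑ i ∈ Finset.range n, q ^ i := by
  rw [Finset.sum_range_succ', Finset.mul_sum, add_comm, pow_zero]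
  congr 1
  exact Finset.sum_congr rfl fun i _ => by ring

/-- `u ↦ 1 + q u` maps the disc into itself -/
lemma disc_a {q u : ℂ} (hq : ‖q‖ ≤ ss ^ 2) (hu : ‖u - 1‖ ≤ ss) : ‖(1 + q * u) - 1‖ ≤ ss := by
  have h1 : ‖u‖ ≤ 1 + ss := by
    calc ‖u‖ = ‖(u - 1) + 1‖ := by ring_nf
      _ ≤ ‖u - 1‖ + ‖(1 : ℂ)‖ := norm_add_le _ _
      _ ≤ 1 + ss := by rw [norm_one]; linarith
  have h2 := ss_pos
  have h3 := ss_eq
  rw [show (1 + q * u) - 1 = q * u by ring, norm_mul]
  calc ‖q‖ * ‖u‖ ≤ ss ^ 2 * (1 + ss) := by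
        apply mul_le_mul hq h1 (norm_nonneg _) (by positivity)
    _ = ss := by nlinarith

lemma disc_norm {u : ℂ} (hu : ‖u - 1‖ ≤ ss) : ss ^ 2 ≤ ‖u‖ := by
  have : ‖(1 : ℂ)‖ ≤ ‖u‖ + ‖u - 1‖ := by
    calc ‖(1 : ℂ)‖ = ‖u - (u - 1)‖ := by ring_nf
      _ ≤ ‖u‖ + ‖u - 1‖ := norm_sub_le _ _
  rw [norm_one] at this
  rw [ss_eq]; linarith

/-- `u ↦ 1 + q - q / u` maps the disc into itself -/
lemma disc_b {q u : ℂ} (hq : ‖q‖ ≤ ss ^ 2) (hu : ‖u - 1‖ ≤ ss) :
    ‖(1 + q - q * u⁻¹) - 1‖ ≤ ss := by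
  have h0 := ss_pos
  have h1 := disc_norm hu
  have hu0 : u ≠ 0 := by
    intro h; rw [h, norm_zero] at h1; nlinarith
  have h2 : 0 < ‖u‖ := norm_pos_iff.mpr hu0
  have : (1 + q - q * u⁻¹) - 1 = q * (u - 1) * u⁻¹ := by field_simp; ring
  rw [this, norm_mul, norm_mul, norm_inv, ← div_eq_mul_inv, div_le_iff₀ h2]
  calc ‖q‖ * ‖u - 1‖ ≤ ss ^ 2 * ss := by
        apply mul_le_mul hq hu (norm_nonneg _) (by positivity)
    _ = ss * ss ^ 2 := by ring
    _ ≤ ss * ‖u‖ := by
        apply mul_le_mul_of_nonneg_left h1 h0.le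

lemma disc_geom {q : ℂ} (hq : ‖q‖ ≤ ss ^ 2) (n : ℕ) :
    ‖(∑ i ∈ Finset.range (n + 1), q ^ i) - 1‖ ≤ ss := by
  induction n with
  | zero => simpa using ss_pos.le
  | succ n ih => rw [geom_succ]; exact disc_a hq ih

lemma disc_M {q u : ℂ} (hq : ‖q‖ ≤ ss ^ 2) (hu : ‖u - 1‖ ≤ ss) (n : ℕ) :
    ‖(∑ i ∈ Finset.range (n + 2), q ^ i - q ^ (n + 1) * u⁻¹) - 1‖ ≤ ss := by
  induction n with
  | zero =>
    have := disc_b hq hu
    rw [geom_succ, geom_succ]
    simpa using this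
  | succ n ih =>
    have := disc_a hq ih
    rw [geom_succ (n + 1 + 1)]
    convert this using 2
    ring

lemma disc_qf {q : ℂ} (hq : ‖q‖ ≤ ss ^ 2) (N : ℕ) : ∀ c : ℕ → ℕ, (∀ j, 2 ≤ c j) →
    ‖qf N c q - 1‖ ≤ ss := by
  induction N with
  | zero =>
    intro c hc
    obtain ⟨m, hm⟩ : ∃ m, c 0 = m + 1 := ⟨c 0 - 1, by have := hc 0; omega⟩
    simp only [qf]; rw [hm]; exact disc_geom hq m
  | succ N ih =>
    intro c hc
    obtain ⟨m, hm⟩ : ∃ m, c 0 = m + 2 := ⟨c 0 - 2, by have := hc 0; omega⟩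
    have h1 := ih (fun j => c (j + 1)) (fun j => hc _)
    simp only [qf]; rw [hm]
    simpa using disc_M hq h1 m

lemma qf_ne_zero {q : ℂ} (hq : ‖q‖ ≤ ss ^ 2) (N : ℕ) (c : ℕ → ℕ) (hc : ∀ j, 2 ≤ c j) :
    qf N c q ≠ 0 := by
  have h1 := disc_norm (disc_qf hq N c hc)
  have h0 := ss_pos
  intro h; rw [h, norm_zero] at h1; nlinarith

lemma norm_qf_le {q : ℂ} (hq : ‖q‖ ≤ ss ^ 2) (N : ℕ) (c : ℕ → ℕ) (hc : ∀ j, 2 ≤ c j) :
    ‖qf N c q‖ ≤ 2 := by
  have h1 := disc_qf hq N c hc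
  have h2 := ss_lt
  calc ‖qf N c q‖ = ‖(qf N c q - 1) + 1‖ := by ring_nf
    _ ≤ ‖qf N c q - 1‖ + ‖(1 : ℂ)‖ := norm_add_le _ _
    _ ≤ 2 := by rw [norm_one]; linarith

lemma contDiffAt_qf (N : ℕ) : ∀ (c : ℕ → ℕ), (∀ j, 2 ≤ c j) → ∀ q : ℂ, ‖q‖ ≤ ss ^ 2 →
    ∀ n : WithTop ℕ∞, ContDiffAt ℂ n (qf N c) q := by
  induction N with
  | zero =>
    intro c hc q hq n
    show ContDiffAt ℂ n (fun q => ∑ i ∈ Finset.range (c 0), q ^ i) q
    fun_prop
  | succ N ih =>
    intro c hc q hq n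
    have h1 := ih (fun j => c (j + 1)) (fun j => hc _) q hq n
    have h2 := qf_ne_zero hq N (fun j => c (j + 1)) (fun j => hc _)
    show ContDiffAt ℂ n (fun q => ∑ i ∈ Finset.range (c 0), q ^ i
      - q ^ (c 0 - 1) * (qf N (fun j => c (j + 1)) q)⁻¹) q
    exact ContDiffAt.sub (by fun_prop) (ContDiffAt.mul (by fun_prop) (h1.inv h2))

/-! ### Taylor series -/

/-- the Taylor series at `0` -/
noncomputable def Ty (f : ℂ → ℂ) : PowerSeries ℂ :=
  PowerSeries.mk fun n => iteratedDeriv n f 0 / n.factorial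

lemma Ty_congr {f g : ℂ → ℂ} (h : f =ᶠ[𝓝 0] g) : Ty f = Ty g := by
  ext n
  simp only [Ty, PowerSeries.coeff_mk]
  rw [(h.iteratedDeriv n).eq_of_nhds]

lemma Ty_sub {f g : ℂ → ℂ} (hf : ∀ n : ℕ, ContDiffAt ℂ n f 0) (hg : ∀ n : ℕ, ContDiffAt ℂ n g 0) :
    Ty (fun z => f z - g z) = Ty f - Ty g := by
  ext n
  simp only [Ty, PowerSeries.coeff_mk, map_sub]
  rw [iteratedDeriv_fun_sub (hf n) (hg n), sub_div]

lemma Ty_add {f g : ℂ → ℂ} (hf : ∀ n : ℕ, ContDiffAt ℂ n f 0) (hg : ∀ n : ℕ, ContDiffAt ℂ n g 0) :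
    Ty (fun z => f z + g z) = Ty f + Ty g := by
  ext n
  simp only [Ty, PowerSeries.coeff_mk, map_add]
  rw [iteratedDeriv_fun_add (hf n) (hg n), add_div]

lemma Ty_mul {f g : ℂ → ℂ} (hf : ∀ n : ℕ, ContDiffAt ℂ n f 0) (hg : ∀ n : ℕ, ContDiffAt ℂ n g 0) :
    Ty (fun z => f z * g z) = Ty f * Ty g := by
  ext n
  rw [PowerSeries.coeff_mul]
  simp only [Ty, PowerSeries.coeff_mk]
  rw [iteratedDeriv_fun_mul (hf n) (hg n),
    Finset.Nat.sum_antidiagonal_eq_sum_range_succ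
      (fun i j => iteratedDeriv i f 0 / i.factorial * (iteratedDeriv j g 0 / j.factorial)) n,
    Finset.sum_div]
  refine Finset.sum_congr rfl fun i hi => ?_
  have hi' : i ≤ n := by
    have := Finset.mem_range.mp hi; omega
  have h1 : ((n.choose i : ℕ) : ℂ) * i.factorial * (n - i).factorial = n.factorial := by
    exact_mod_cast Nat.choose_mul_factorial_mul_factorial hi'
  have h2 : ((n.factorial : ℕ) : ℂ) ≠ 0 := by exact_mod_cast n.factorial_ne_zero
  have h3 : ((i.factorial : ℕ) : ℂ) ≠ 0 := by exact_mod_cast i.factorial_ne_zero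
  have h4 : (((n - i).factorial : ℕ) : ℂ) ≠ 0 := by exact_mod_cast (n - i).factorial_ne_zero
  rw [div_mul_div_comm, div_eq_div_iff h2 (mul_ne_zero h3 h4)]
  linear_combination (iteratedDeriv i f 0 * iteratedDeriv (n - i) g 0) * h1

lemma Ty_one : Ty (fun _ => 1) = 1 := by
  ext n
  simp only [Ty, PowerSeries.coeff_mk, iteratedDeriv_const, PowerSeries.coeff_one]
  cases n <;> simp

lemma Ty_X : Ty (fun z => z) = PowerSeries.X := by
  ext n
  simp only [Ty, PowerSeries.coeff_mk, PowerSeries.coeff_X]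
  rw [show (fun z : ℂ => z) = id from rfl, iteratedDeriv_id]
  rcases n with _ | _ | n <;> simp

lemma Ty_pow (k : ℕ) : Ty (fun z => z ^ k) = PowerSeries.X ^ k := by
  induction k with
  | zero => simpa using Ty_one
  | succ k ih =>
    have : (fun z : ℂ => z ^ (k + 1)) = fun z => z ^ k * z := funext fun z => pow_succ z k
    rw [this, Ty_mul (fun n => by fun_prop) (fun n => by fun_prop), ih, Ty_X, pow_succ]

lemma Ty_geom (k : ℕ) : Ty (fun z => ∑ i ∈ Finset.range k, z ^ i)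
    = ∑ i ∈ Finset.range k, PowerSeries.X ^ i := by
  induction k with
  | zero =>
    ext n
    simp [Ty]
  | succ k ih =>
    have : (fun z : ℂ => ∑ i ∈ Finset.range (k + 1), z ^ i)
        = fun z => (∑ i ∈ Finset.range k, z ^ i) + z ^ k :=
      funext fun z => Finset.sum_range_succ _ _
    rw [this, Ty_add (fun n => by fun_prop) (fun n => by fun_prop), ih, Ty_pow,
      Finset.sum_range_succ]

lemma Ty_qf (N : ℕ) : ∀ c : ℕ → ℕ, (∀ j, 2 ≤ c j) →
    Ty (qf N c) = PowerSeries.map (Int.castRingHom ℂ) (qcf N c) := by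
  have hz : ‖(0 : ℂ)‖ ≤ ss ^ 2 := by rw [norm_zero]; positivity
  have hgeom : ∀ k, PowerSeries.map (Int.castRingHom ℂ) (qInt k)
      = ∑ i ∈ Finset.range k, PowerSeries.X ^ i := by
    intro k; simp [qInt]
  induction N with
  | zero =>
    intro c hc
    show Ty (fun q => ∑ i ∈ Finset.range (c 0), q ^ i) = _
    rw [Ty_geom, qcf, hgeom]
  | succ N ih =>
    intro c hc
    set c' : ℕ → ℕ := fun j => c (j + 1) with hc'
    have hc2 : ∀ j, 2 ≤ c' j := fun j => hc _
    have hf : ∀ n : ℕ, ContDiffAt ℂ n (qf N c') 0 := fun n => contDiffAt_qf N c' hc2 0 hz n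
    have hne : qf N c' 0 ≠ 0 := qf_ne_zero hz N c' hc2
    have hfi : ∀ n : ℕ, ContDiffAt ℂ n (fun z => (qf N c' z)⁻¹) 0 := fun n => (hf n).inv hne
    have hmul : Ty (fun z => (qf N c' z)⁻¹) * Ty (qf N c') = 1 := by
      rw [← Ty_mul hfi hf, ← Ty_one]
      refine Ty_congr ?_
      have : ∀ᶠ z in 𝓝 (0 : ℂ), qf N c' z ≠ 0 := (hf 0).continuousAt.eventually_ne hne
      filter_upwards [this] with z hz
      exact inv_mul_cancel₀ hz
    have hinv : Ty (fun z => (qf N c' z)⁻¹)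
        = PowerSeries.map (Int.castRingHom ℂ) (Ring.inverse (qcf N c')) := by
      have e1 : PowerSeries.map (Int.castRingHom ℂ) (qcf N c')
          * PowerSeries.map (Int.castRingHom ℂ) (Ring.inverse (qcf N c')) = 1 := by
        rw [← map_mul, Ring.mul_inverse_cancel _ (isUnit_qcf N c' hc2), map_one]
      rw [ih c' hc2] at hmul
      calc Ty (fun z => (qf N c' z)⁻¹)
          = Ty (fun z => (qf N c' z)⁻¹) * (PowerSeries.map (Int.castRingHom ℂ) (qcf N c')
          * PowerSeries.map (Int.castRingHom ℂ) (Ring.inverse (qcf N c'))) := by rw [e1, mul_one]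
        _ = _ := by rw [← mul_assoc, hmul, one_mul]
    show Ty (fun q => ∑ i ∈ Finset.range (c 0), q ^ i - q ^ (c 0 - 1) * (qf N c' q)⁻¹) = _
    rw [Ty_sub (fun n => by fun_prop)
        (fun n => ContDiffAt.mul (by fun_prop) (hfi n)),
      Ty_mul (fun n => by fun_prop) hfi, Ty_geom, Ty_pow, hinv]
    show _ = PowerSeries.map (Int.castRingHom ℂ)
      (qInt (c 0) - PowerSeries.X ^ (c 0 - 1) * Ring.inverse (qcf N c'))
    rw [map_sub, map_mul, map_pow, PowerSeries.map_X, hgeom]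

/-- the bound for the coefficients of the truncations -/
lemma coeff_qcf_bound (N : ℕ) (c : ℕ → ℕ) (hc : ∀ j, 2 ≤ c j) (k : ℕ) :
    |((PowerSeries.coeff k (qcf N c) : ℤ) : ℝ)| * (ss ^ 2) ^ k ≤ 2 := by
  have hs := ss_pos
  have hr : (0 : ℝ) < ss ^ 2 := by positivity
  have hd : DiffContOnCl ℂ (qf N c) (Metric.ball 0 (ss ^ 2)) := by
    apply DifferentiableOn.diffContOnCl
    intro q hq
    have hq' : ‖q‖ ≤ ss ^ 2 := by
      have := Metric.closure_ball_subset_closedBall hq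
      simpa using this
    exact ((contDiffAt_qf N c hc q hq' 1).differentiableAt (by simp)).differentiableWithinAt
  have hb : ∀ z ∈ Metric.sphere (0 : ℂ) (ss ^ 2), ‖qf N c z‖ ≤ 2 := by
    intro z hz
    apply norm_qf_le _ N c hc
    rw [mem_sphere_zero_iff_norm] at hz
    exact hz.le
  have h1 := Complex.norm_iteratedDeriv_le_of_forall_mem_sphere_norm_le k hr hd hb
  have h2 : ((PowerSeries.coeff k (qcf N c) : ℤ) : ℂ) = iteratedDeriv k (qf N c) 0 / k.factorial := by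
    have := congrArg (PowerSeries.coeff k) (Ty_qf N c hc)
    simp only [Ty, PowerSeries.coeff_mk, PowerSeries.coeff_map] at this
    rw [this]; rfl
  have h3 : |((PowerSeries.coeff k (qcf N c) : ℤ) : ℝ)|
      = ‖((PowerSeries.coeff k (qcf N c) : ℤ) : ℂ)‖ := (Complex.norm_intCast _).symm
  have hk : (0 : ℝ) < k.factorial := by exact_mod_cast k.factorial_pos
  rw [h3, h2, norm_div, Complex.norm_natCast, div_mul_eq_mul_div, div_le_iff₀ hk]
  have h4 : 0 < (ss ^ 2) ^ k := by positivity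
  rw [le_div_iff₀ h4] at h1
  linarith

lemma coeff_lims_bound {c : ℕ → ℕ} (hc : ∀ j, 2 ≤ c j) (k : ℕ) :
    |((PowerSeries.coeff k (lims c) : ℤ) : ℝ)| * (ss ^ 2) ^ k ≤ 2 := by
  rw [lims, PowerSeries.coeff_mk]
  exact coeff_qcf_bound k c hc k

/-! ### the q-deformed real numbers -/

/-- the shift `G ↦ q⁻¹ (G - 1)` -/
noncomputable def sh (G : LaurentSeries ℤ) : LaurentSeries ℤ :=
  HahnSeries.single (-1 : ℤ) (1 : ℤ) * (G - 1)

/-- the q-deformation of `x ≥ 1` -/
noncomputable def Q1 (x : ℝ) : LaurentSeries ℤ :=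
  open Classical in
  if h : ∃ c, Expansion x c then HahnSeries.ofPowerSeries ℤ ℤ (lims h.choose) else 0

lemma Q1_eq {x : ℝ} {c : ℕ → ℕ} (h : Expansion x c) :
    Q1 x = HahnSeries.ofPowerSeries ℤ ℤ (lims c) := by
  have hex : ∃ c, Expansion x c := ⟨c, h⟩
  have : hex.choose = c := funext fun j => expansion_unique j x _ _ hex.choose_spec h
  rw [Q1, dif_pos hex, this]

lemma Q1_shift {x : ℝ} (hx : 2 ≤ x) : Q1 (x - 1) = sh (Q1 x) := by
  obtain ⟨c, hc⟩ := exists_expansion (show 1 ≤ x by linarith)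
  obtain ⟨c', h1, h2⟩ := expansion_shift hx hc
  rw [Q1_eq hc, Q1_eq h1, h2, sh]

lemma Q1_iter (m : ℕ) : ∀ x : ℝ, 1 ≤ x → sh^[m] (Q1 (x + m)) = Q1 x := by
  induction m with
  | zero => intro x _; simp
  | succ m ih =>
    intro x hx
    rw [Function.iterate_succ_apply]
    have h1 : sh (Q1 (x + (m + 1 : ℕ))) = Q1 (x + m) := by
      rw [← Q1_shift (by push_cast; linarith [(Nat.cast_nonneg m : (0 : ℝ) ≤ m)])]
      congr 1; push_cast; ring
    rw [h1, ih x hx]

/-- the q-deformation of a real number -/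
noncomputable def QQ (x : ℝ) : LaurentSeries ℤ := sh^[⌈1 - x⌉₊] (Q1 (x + (⌈1 - x⌉₊ : ℕ)))

lemma QQ_eq (x : ℝ) (m : ℕ) (hm : 1 ≤ x + m) : QQ x = sh^[m] (Q1 (x + m)) := by
  have h1 : ⌈1 - x⌉₊ ≤ m := Nat.ceil_le.mpr (by linarith)
  obtain ⟨d, rfl⟩ := Nat.exists_eq_add_of_le h1
  have h2 : (1 : ℝ) ≤ x + (⌈1 - x⌉₊ : ℕ) := by
    have := Nat.le_ceil (1 - x); linarith
  rw [Function.iterate_add_apply]
  have := Q1_iter d (x + (⌈1 - x⌉₊ : ℕ)) h2
  rw [show x + ((⌈1 - x⌉₊ + d : ℕ) : ℝ) = x + (⌈1 - x⌉₊ : ℕ) + d by push_cast; ring, this, QQ]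

lemma QQ_of_one_le {x : ℝ} (hx : 1 ≤ x) : QQ x = Q1 x := by
  have := QQ_eq x 0 (by simpa using hx)
  simpa using this

lemma QQ_shift (x : ℝ) : QQ (x - 1) = sh (QQ x) := by
  obtain ⟨m, hm⟩ := exists_nat_ge (1 - x)
  have h1 : 1 ≤ x + m := by linarith
  have h2 : 1 ≤ x - 1 + ((m + 1 : ℕ) : ℝ) := by push_cast; linarith
  rw [QQ_eq x m h1, QQ_eq (x - 1) (m + 1) h2, Function.iterate_succ_apply']
  rw [show x - 1 + ((m + 1 : ℕ) : ℝ) = x + m by push_cast; ring]

lemma isQReal_QQ : IsQReal QQ := by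
  refine ⟨fun x hx c hc => ⟨lims c, qlim_lims hc.1, ?_⟩, QQ_shift⟩
  rw [QQ_of_one_le hx, Q1_eq hc]

lemma isQReal_unique (Q : ℝ → LaurentSeries ℤ) (hQ : IsQReal Q) : Q = QQ := by
  have h1 : ∀ x : ℝ, 1 ≤ x → Q x = QQ x := by
    intro x hx
    obtain ⟨c, hc⟩ := exists_expansion hx
    obtain ⟨F, hF, hQF⟩ := hQ.lim x hx c hc
    rw [hQF, QQ_of_one_le hx, Q1_eq hc, qlim_unique hF (qlim_lims hc.1)]
  have h2 : ∀ m : ℕ, ∀ x : ℝ, 1 ≤ x + m → Q x = QQ x := by
    intro m
    induction m with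
    | zero => intro x hx; exact h1 x (by simpa using hx)
    | succ m ih =>
      intro x hx
      have h3 := ih (x + 1) (by push_cast at hx; linarith)
      have h4 := hQ.shift (x + 1)
      have h5 := QQ_shift (x + 1)
      rw [add_sub_cancel_right] at h4 h5
      rw [h4, h5, h3, sh]
  funext x
  obtain ⟨m, hm⟩ := exists_nat_ge (1 - x)
  exact h2 m x (by linarith)

/-! ### the radius -/

/-- exponential bound for the coefficients -/
def Bd (G : LaurentSeries ℤ) : Prop :=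
  ∃ C : ℝ, ∀ k : ℕ, |((G.coeff (k : ℤ) : ℤ) : ℝ)| * (ss ^ 2) ^ k ≤ C

lemma Bd_Q1 {x : ℝ} (hx : 1 ≤ x) : Bd (Q1 x) := by
  obtain ⟨c, hc⟩ := exists_expansion hx
  refine ⟨2, fun k => ?_⟩
  rw [Q1_eq hc, HahnSeries.ofPowerSeries_apply_coeff]
  exact coeff_lims_bound hc.1 k

lemma Bd_sh {G : LaurentSeries ℤ} (h : Bd G) : Bd (sh G) := by
  obtain ⟨C, hC⟩ := h
  have hs := ss_pos
  refine ⟨C / ss ^ 2, fun k => ?_⟩
  have h1 : (sh G).coeff (k : ℤ) = G.coeff ((k + 1 : ℕ) : ℤ) := by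
    have e : (k : ℤ) = ((k + 1 : ℕ) : ℤ) + (-1 : ℤ) := by push_cast; ring
    rw [sh, e, HahnSeries.coeff_single_mul_add, one_mul, HahnSeries.coeff_sub]
    have : (1 : LaurentSeries ℤ).coeff ((k + 1 : ℕ) : ℤ) = 0 := by
      rw [HahnSeries.coeff_one, if_neg (by positivity)]
    rw [this, sub_zero]
  rw [h1, le_div_iff₀ (by positivity)]
  calc _ = |((G.coeff ((k + 1 : ℕ) : ℤ) : ℤ) : ℝ)| * (ss ^ 2) ^ (k + 1) := by ring
    _ ≤ C := hC (k + 1)

lemma Bd_QQ (x : ℝ) : Bd (QQ x) := by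
  have h2 : (1 : ℝ) ≤ x + (⌈1 - x⌉₊ : ℕ) := by
    have := Nat.le_ceil (1 - x); linarith
  have h3 : ∀ m : ℕ, ∀ G : LaurentSeries ℤ, Bd G → Bd (sh^[m] G) := by
    intro m
    induction m with
    | zero => intro G h; exact h
    | succ m ih => intro G h; rw [Function.iterate_succ_apply]; exact ih _ (Bd_sh h)
  exact h3 _ _ (Bd_Q1 h2)

lemma le_radius_of_Bd {G : LaurentSeries ℤ} (h : Bd G) :
    ENNReal.ofReal ((3 - √5) / 2) ≤ radius G := by
  obtain ⟨C, hC⟩ := h
  have hs := ss_pos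
  rw [ss_rho]
  refine FormalMultilinearSeries.le_radius_of_bound _ C (r := Real.toNNReal (ss ^ 2)) fun k => ?_
  rw [FormalMultilinearSeries.ofScalars_norm, Complex.norm_intCast,
    Real.coe_toNNReal _ (by positivity)]
  exact hC k

/-- There is exactly one assignment `x ↦ [x]_q` of Laurent series with integer coefficients to the
real numbers such that for `x ≥ 1` the series `[x]_q` is the `q`-adic limit of the q-deformed
truncations of the negative continued fraction of `x`, and `[x - 1]_q = q⁻¹ ([x]_q - 1)` for every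
real `x`; and for every real number `x` the radius of convergence of `[x]_q` is at least
`(3 - √5) / 2`. -/
theorem result :
    ∃ Q : ℝ → LaurentSeries ℤ, IsQReal Q ∧ (∀ Q' : ℝ → LaurentSeries ℤ, IsQReal Q' → Q' = Q) ∧
      ∀ x : ℝ, ENNReal.ofReal ((3 - √5) / 2) ≤ radius (Q x) :=
  ⟨QQ, isQReal_QQ, fun Q' h => isQReal_unique Q' h, fun x => le_radius_of_Bd (Bd_QQ x)⟩

end Pool.Agent.Results.MP_b13893_an.RadiusOfConvergence
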